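import Pool.Agent.R489.HB.Stm

/-!
# Project HB (MP_ffa969_co), piece FOR: from the decomposition to three forests
-/

set_option autoImplicit false
set_option maxHeartbeats 400000

namespace Pool.Agent.R715.HB

open Finset
open Pool.Agent.R489.HB

section

variable {W : Type} [DecidableEq W]

theorem dep {v : Finset W → (W → ZMod 2)} {S : Set (Finset W)} (h : LinearIndepOn (ZMod 2) v S)
    {t : Finset (Finset W)} (hne : t.Nonempty) (hS : ∀ e ∈ t, e ∈ S) (hsum : ∑ e ∈ t, v e = 0) :
    False := by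
  have h1 : LinearIndepOn (ZMod 2) v (t : Set (Finset W)) := h.mono (fun e he => hS e he)
  rw [linearIndepOn_finset_iff] at h1
  obtain ⟨e, he⟩ := hne
  have h2 := h1 (fun _ => 1) (by simpa using hsum) e he
  exact one_ne_zero h2

theorem ind_pair {x y : W} (h : x ≠ y) : ind ({x, y} : Finset W) = ind {x} + ind {y} := by
  funext w
  simp only [ind, Pi.add_apply, Finset.mem_insert, Finset.mem_singleton]
  by_cases h1 : w = x
  · have h2 : w ≠ y := fun h2 => h (h1.symm.trans h2)
    simp [h1, h]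
  · by_cases h2 : w = y
    · simp [h1, h2, h.symm]
    · simp [h1, h2]

theorem walk_sum {G' : SimpleGraph W} {x y : W} (p : G'.Walk x y) :
    (p.edges.map (fun e => ind e.toFinset)).sum = ind ({x} : Finset W) + ind {y} := by
  induction p with
  | nil =>
    rw [SimpleGraph.Walk.edges_nil, List.map_nil, List.sum_nil]
    funext w
    exact (CharTwo.add_self_eq_zero _).symm
  | @cons u v w h p ih =>
    rw [SimpleGraph.Walk.edges_cons, List.map_cons, List.sum_cons, ih, Sym2.toFinset_mk_eq,
      ind_pair h.ne]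
    funext z
    simp only [Pi.add_apply]
    have h1 := CharTwo.add_self_eq_zero (ind ({v} : Finset W) z)
    linear_combination h1

theorem toF_inj : Function.Injective (Sym2.toFinset : Sym2 W → Finset W) := fun p q h =>
  Sym2.ext (fun x => by rw [← Sym2.mem_toFinset, h, Sym2.mem_toFinset])

/-- The edges of a closed walk. -/
def ce {G' : SimpleGraph W} {x : W} (p : G'.Walk x x) : Finset (Finset W) :=
  p.edges.toFinset.image Sym2.toFinset

theorem ce_sum {G' : SimpleGraph W} {x : W} (p : G'.Walk x x) (hp : p.IsCycle) :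
    ∑ e ∈ ce p, ind e = 0 := by
  unfold ce
  rw [Finset.sum_image (fun a _ b _ h => toF_inj h), List.sum_toFinset _ hp.edges_nodup, walk_sum]
  funext w
  exact CharTwo.add_self_eq_zero _

theorem ce_mem {G' : SimpleGraph W} {x : W} (p : G'.Walk x x) {e : Finset W} (he : e ∈ ce p) :
    ∃ u w, e = {u, w} ∧ G'.Adj u w ∧ u ∈ p.support ∧ w ∈ p.support := by
  obtain ⟨s, hs, rfl⟩ := Finset.mem_image.1 he
  rw [List.mem_toFinset] at hs
  induction s using Sym2.ind with
  | _ u w =>
    exact ⟨u, w, Sym2.toFinset_mk_eq, p.adj_of_mem_edges hs, p.fst_mem_support_of_mem_edges hs,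
      p.snd_mem_support_of_mem_edges hs⟩

theorem ce_card {G' : SimpleGraph W} {x : W} (p : G'.Walk x x) (hp : p.IsCycle) :
    3 ≤ (ce p).card := by
  unfold ce
  rw [Finset.card_image_of_injective _ toF_inj, List.toFinset_card_of_nodup hp.edges_nodup,
    SimpleGraph.Walk.length_edges]
  exact hp.three_le_length

theorem pow2 {x y z : W} (hxy : x ≠ y) (hxz : x ≠ z) (hyz : y ≠ z) {e : Finset W}
    (he : e ∈ ({x, y, z} : Finset W).powersetCard 2) : e = {x, y} ∨ e = {x, z} ∨ e = {y, z} := by
  rw [Finset.mem_powersetCard] at he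
  obtain ⟨hs, hc⟩ := he
  have h3 : ({x, y, z} : Finset W).card = 3 := Finset.card_eq_three.2 ⟨x, y, z, hxy, hxz, hyz, rfl⟩
  obtain ⟨w, hw, hwe⟩ := Finset.exists_mem_notMem_of_card_lt_card (s := e) (t := {x, y, z})
    (by omega)
  have h4 : e ⊆ ({x, y, z} : Finset W).erase w := fun v hv =>
    Finset.mem_erase.2 ⟨fun h => hwe (h ▸ hv), hs hv⟩
  have h5 : e = ({x, y, z} : Finset W).erase w := Finset.eq_of_subset_of_card_le h4
    (by rw [Finset.card_erase_of_mem hw, h3, hc])
  rw [h5]
  simp only [Finset.mem_insert, Finset.mem_singleton] at hw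
  rcases hw with rfl | rfl | rfl
  · right; right
    ext v
    grind
  · right; left
    ext v
    grind
  · left
    ext v
    grind

theorem dec3 : ∀ p q r : Fin 3, ¬ (p = q ∧ q = r) → ∃ c1 c2 c3 : Fin 3, c1 ≠ c2 ∧ c1 ≠ c3 ∧
    c2 ≠ c3 ∧ ¬ (p = c1 ∧ q = c1) ∧ ¬ (p = c2 ∧ r = c2) ∧ ¬ (q = c3 ∧ r = c3) := by
  decide

theorem ct_ex (T : Finset W) (a : W → Fin 3) (hT : T.card = 3) (hm : ¬ mono a T) :
    ∃ ct : Finset W → Fin 3, (∀ e ∈ T.powersetCard 2, ∀ e' ∈ T.powersetCard 2,
      ct e = ct e' → e = e') ∧ ∀ e ∈ T.powersetCard 2, ¬ ∀ x ∈ e, a x = ct e := by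
  obtain ⟨x, y, z, hxy, hxz, hyz, rfl⟩ := Finset.card_eq_three.1 hT
  have hm' : ¬ (a x = a y ∧ a y = a z) := by
    rintro ⟨h1, h2⟩
    apply hm
    intro u hu w hw
    simp only [Finset.mem_insert, Finset.mem_singleton] at hu hw
    rcases hu with rfl | rfl | rfl <;> rcases hw with rfl | rfl | rfl <;> simp [h1, h2]
  obtain ⟨c1, c2, c3, h12, h13, h23, k1, k2, k3⟩ := dec3 (a x) (a y) (a z) hm'
  have n1 : ({x, z} : Finset W) ≠ {x, y} := by
    intro h
    have h1 : z ∈ ({x, y} : Finset W) := h ▸ (by simp)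
    simp only [Finset.mem_insert, Finset.mem_singleton] at h1
    rcases h1 with h1 | h1
    · exact hxz h1.symm
    · exact hyz h1.symm
  have n2 : ({y, z} : Finset W) ≠ {x, y} := by
    intro h
    have h1 : z ∈ ({x, y} : Finset W) := h ▸ (by simp)
    simp only [Finset.mem_insert, Finset.mem_singleton] at h1
    rcases h1 with h1 | h1
    · exact hxz h1.symm
    · exact hyz h1.symm
  have n3 : ({y, z} : Finset W) ≠ {x, z} := by
    intro h
    have h1 : y ∈ ({x, z} : Finset W) := h ▸ (by simp)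
    simp only [Finset.mem_insert, Finset.mem_singleton] at h1
    rcases h1 with h1 | h1
    · exact hxy h1.symm
    · exact hyz h1
  set ct : Finset W → Fin 3 := fun e => if e = {x, y} then c1 else if e = {x, z} then c2 else c3
    with hct
  have e1 : ct {x, y} = c1 := by simp [hct]
  have e2 : ct {x, z} = c2 := by simp [hct, n1]
  have e3 : ct {y, z} = c3 := by simp [hct, n2, n3]
  refine ⟨ct, ?_, ?_⟩
  · intro e he e' he' h
    rcases pow2 hxy hxz hyz he with rfl | rfl | rfl <;>
    rcases pow2 hxy hxz hyz he' with rfl | rfl | rfl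
    · rfl
    · rw [e1, e2] at h; exact absurd h h12
    · rw [e1, e3] at h; exact absurd h h13
    · rw [e2, e1] at h; exact absurd h.symm h12
    · rfl
    · rw [e2, e3] at h; exact absurd h h23
    · rw [e3, e1] at h; exact absurd h.symm h13
    · rw [e3, e2] at h; exact absurd h.symm h23
    · rfl
  · intro e he h
    rcases pow2 hxy hxz hyz he with rfl | rfl | rfl
    · rw [e1] at h
      exact k1 ⟨h x (by simp), h y (by simp)⟩
    · rw [e2] at h
      exact k2 ⟨h x (by simp), h z (by simp)⟩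
    · rw [e3] at h
      exact k3 ⟨h y (by simp), h z (by simp)⟩

theorem vec_out (T : Finset W) (a : W → Fin 3) (i : Fin 3) (e : Finset W) (h : ∀ y ∈ e, a y ≠ i) :
    vec T a i e = fun x => if x ∈ T then 0 else ind e x := by
  funext x
  unfold vec ind
  by_cases h1 : x ∈ T
  · simp [h1]
  · by_cases h2 : x ∈ e
    · rw [if_pos ⟨h2, h1, Or.inl h⟩, if_neg h1, if_pos h2]
    · rw [if_neg (fun h3 => h2 h3.1), if_neg h1, if_neg h2]

theorem vec_one (T : Finset W) (a : W → Fin 3) (i : Fin 3) {u w : W} (hu : a u = i)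
    (hw : a w ≠ i) : vec T a i {u, w} = fun x => if x = u ∧ u ∉ T then 1 else 0 := by
  funext x
  unfold vec
  by_cases h1 : x = u ∧ u ∉ T
  · rw [if_pos h1, if_pos]
    refine ⟨by simp [h1.1], by rw [h1.1]; exact h1.2, Or.inr ⟨by rw [h1.1]; exact hu, w, by simp, hw⟩⟩
  · rw [if_neg h1, if_neg]
    rintro ⟨h2, h3, h4⟩
    rcases h4 with h4 | ⟨h4, -⟩
    · exact h4 u (by simp) hu
    · simp only [Finset.mem_insert, Finset.mem_singleton] at h2
      rcases h2 with rfl | rfl
      · exact h1 ⟨rfl, h3⟩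
      · exact hw h4

theorem vec_in (T : Finset W) (a : W → Fin 3) (i : Fin 3) {u w : W} (hu : a u = i)
    (hw : a w = i) : vec T a i {u, w} = 0 := by
  funext x
  unfold vec
  rw [if_neg]
  · rfl
  rintro ⟨h2, h3, h4⟩
  rcases h4 with h4 | ⟨h4, y, hy, h5⟩
  · exact h4 u (by simp) hu
  · simp only [Finset.mem_insert, Finset.mem_singleton] at hy
    rcases hy with rfl | rfl
    · exact h5 hu
    · exact h5 hw

theorem pair_right {u w w' : W} (h : ({u, w} : Finset W) = {u, w'}) (hw : u ≠ w) : w = w' := by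
  have h1 : w ∈ ({u, w'} : Finset W) := h ▸ (by simp)
  simp only [Finset.mem_insert, Finset.mem_singleton] at h1
  rcases h1 with h1 | h1
  · exact absurd h1.symm hw
  · exact h1

end

/-- Piece FOR. -/
theorem FOR : S_FOR := by
  intro W _ Φ T a hΦ hT hm hFC hRD
  obtain ⟨c0, hc0⟩ := hRD
  obtain ⟨ct, hct1, hct2⟩ := ct_ex T a (hΦ.three T hT) hm
  set C : Finset W → Fin 3 := fun e => if e ⊆ T then ct e else c0 e with hC
  have hCT : ∀ e : Finset W, e ⊆ T → C e = ct e := fun e he => if_pos he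
  have hCn : ∀ e : Finset W, ¬ e ⊆ T → C e = c0 e := fun e he => if_neg he
  have hpc : ∀ u w, (gr Φ).Adj u w → {u, w} ⊆ T → {u, w} ∈ T.powersetCard 2 := by
    intro u w h hs
    exact Finset.mem_powersetCard.2 ⟨hs, Finset.card_pair h.1⟩
  have h3 : ∀ (i : Fin 3) (u w : W), (gr Φ).Adj u w → C {u, w} = i → ¬ (a u = i ∧ a w = i) := by
    rintro i u w h hc ⟨hu, hw⟩
    by_cases hs : ({u, w} : Finset W) ⊆ T
    · rw [hCT _ hs] at hc
      apply hct2 _ (hpc u w h hs)
      intro x hx
      simp only [Finset.mem_insert, Finset.mem_singleton] at hx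
      rcases hx with rfl | rfl
      · rw [hu, hc]
      · rw [hw, hc]
    · rw [hCn _ hs] at hc
      have h1 : ({u, w} : Finset W) ∈ {e : Finset W | e ∈ edg Φ ∧ ¬ e ⊆ T ∧ c0 e = i} :=
        ⟨h.2, hs, hc⟩
      exact (hc0 i).ne_zero h1 (vec_in T a i hu hw)
  have h4 : ∀ (i : Fin 3) (u w w' : W), a u = i → (gr Φ).Adj u w → C {u, w} = i →
      (gr Φ).Adj u w' → C {u, w'} = i → w = w' := by
    intro i u w w' hu hw hc hw' hc'
    have hwi : a w ≠ i := fun h => h3 i u w hw hc ⟨hu, h⟩
    have hwi' : a w' ≠ i := fun h => h3 i u w' hw' hc' ⟨hu, h⟩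
    by_cases huT : u ∈ T
    · have hins : ∀ z, (gr Φ).Adj u z → C {u, z} = i → a z ≠ i → ({u, z} : Finset W) ⊆ T := by
        intro z hz hcz hzi
        by_contra hs
        rw [hCn _ hs] at hcz
        have h1 : ({u, z} : Finset W) ∈ {e : Finset W | e ∈ edg Φ ∧ ¬ e ⊆ T ∧ c0 e = i} :=
          ⟨hz.2, hs, hcz⟩
        apply (hc0 i).ne_zero h1
        rw [vec_one T a i hu hzi]
        funext x
        simp [huT]
      have hs := hins w hw hc hwi
      have hs' := hins w' hw' hc' hwi'
      rw [hCT _ hs] at hc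
      rw [hCT _ hs'] at hc'
      exact pair_right (hct1 _ (hpc u w hw hs) _ (hpc u w' hw' hs') (hc.trans hc'.symm)) hw.1
    · have hs : ∀ z, ¬ ({u, z} : Finset W) ⊆ T := fun z h => huT (h (by simp))
      rw [hCn _ (hs w)] at hc
      rw [hCn _ (hs w')] at hc'
      have h1 : ({u, w} : Finset W) ∈ {e : Finset W | e ∈ edg Φ ∧ ¬ e ⊆ T ∧ c0 e = i} :=
        ⟨hw.2, hs w, hc⟩
      have h2 : ({u, w'} : Finset W) ∈ {e : Finset W | e ∈ edg Φ ∧ ¬ e ⊆ T ∧ c0 e = i} :=
        ⟨hw'.2, hs w', hc'⟩
      exact pair_right ((hc0 i).injOn h1 h2 (by rw [vec_one T a i hu hwi, vec_one T a i hu hwi']))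
        hw.1
  refine ⟨fun u w => C {u, w}, ⟨fun u w => by simp only [Finset.pair_comm], fun i x p hp => ?_⟩,
    fun x p hp => ?_, h3, h4⟩
  · -- the parts are acyclic
    have hadj : ∀ u w, (part (gr Φ) (fun u w => C {u, w}) (fun u w => by
        simp only [Finset.pair_comm]) i).Adj u w → (gr Φ).Adj u w ∧ C {u, w} = i :=
      fun u w h => h
    have hsupp : ∀ u ∈ p.support, a u ≠ i := by
      intro u hu hui
      have h5 := hp.ncard_neighborSet_toSubgraph_eq_two hu
      obtain ⟨w, w', hne, h6⟩ := Set.ncard_eq_two.1 h5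
      have hw : w ∈ p.toSubgraph.neighborSet u := by rw [h6]; simp
      have hw' : w' ∈ p.toSubgraph.neighborSet u := by rw [h6]; simp
      have k1 := hadj _ _ (p.toSubgraph.adj_sub hw)
      have k2 := hadj _ _ (p.toSubgraph.adj_sub hw')
      exact hne (h4 i u w w' hui k1.1 k1.2 k2.1 k2.2)
    have hvec : ∀ e ∈ ce p, vec T a i e = fun x => if x ∈ T then 0 else ind e x := by
      intro e he
      obtain ⟨u, w, rfl, -, hu, hw⟩ := ce_mem p he
      apply vec_out
      intro y hy
      simp only [Finset.mem_insert, Finset.mem_singleton] at hy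
      rcases hy with rfl | rfl
      · exact hsupp _ hu
      · exact hsupp _ hw
    have hsum : ∑ e ∈ ce p, vec T a i e = 0 := by
      rw [Finset.sum_congr rfl hvec]
      funext z
      rw [Finset.sum_apply]
      by_cases hz : z ∈ T
      · simp [hz]
      · have h5 := congrFun (ce_sum p hp) z
        rw [Finset.sum_apply] at h5
        simpa [hz] using h5
    have hsum' : ∑ e ∈ (ce p).filter (fun e => ¬ e ⊆ T), vec T a i e = 0 := by
      rw [← hsum]
      apply Finset.sum_subset (Finset.filter_subset _ _)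
      intro e he he'
      have hs : e ⊆ T := by
        by_contra h
        exact he' (Finset.mem_filter.2 ⟨he, h⟩)
      rw [hvec e he]
      funext x
      by_cases hx : x ∈ T
      · simp [hx]
      · have hx' : x ∉ e := fun h => hx (hs h)
        simp [hx, ind, hx']
    have hne : ((ce p).filter (fun e => ¬ e ⊆ T)).Nonempty := by
      rw [Finset.nonempty_iff_ne_empty]
      intro h0
      have hall : ∀ e ∈ ce p, e ⊆ T := by
        intro e he
        by_contra h
        have : e ∈ (ce p).filter (fun e => ¬ e ⊆ T) := Finset.mem_filter.2 ⟨he, h⟩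
        rw [h0] at this
        simp at this
      have h5 : (ce p).card ≤ 1 := by
        rw [Finset.card_le_one]
        intro e he e' he'
        have k1 := hall e he
        have k2 := hall e' he'
        obtain ⟨u, w, rfl, h6, -, -⟩ := ce_mem p he
        obtain ⟨u', w', rfl, h7, -, -⟩ := ce_mem p he'
        have h6' := hadj _ _ h6
        have h7' := hadj _ _ h7
        have q1 := h6'.2
        have q2 := h7'.2
        rw [hCT _ k1] at q1
        rw [hCT _ k2] at q2
        exact hct1 _ (hpc _ _ h6'.1 k1) _ (hpc _ _ h7'.1 k2) (q1.trans q2.symm)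
      have := ce_card p hp
      omega
    refine dep (hc0 i) hne ?_ hsum'
    intro e he
    obtain ⟨he1, he2⟩ := Finset.mem_filter.1 he
    obtain ⟨u, w, rfl, h6, -, -⟩ := ce_mem p he1
    have h6' := hadj _ _ h6
    refine ⟨h6'.1.2, he2, ?_⟩
    rw [← hCn _ he2]
    exact h6'.2
  · -- the inside graph is acyclic
    have hadj : ∀ u w, (inside (gr Φ) a).Adj u w → (gr Φ).Adj u w ∧ a u = a w := fun u w h => h
    refine dep hFC (Finset.card_pos.1 (lt_of_lt_of_le (by norm_num) (ce_card p hp))) ?_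
      (ce_sum p hp)
    intro e he
    obtain ⟨u, w, rfl, h6, -, -⟩ := ce_mem p he
    have h6' := hadj _ _ h6
    refine ⟨h6'.1.2, ?_⟩
    intro x hx y hy
    simp only [Finset.mem_insert, Finset.mem_singleton] at hx hy
    rcases hx with rfl | rfl <;> rcases hy with rfl | rfl
    · rfl
    · exact h6'.2
    · exact h6'.2.symm
    · rfl

end Pool.Agent.R715.HB
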